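import Pool.Agent.Helper61.QS.GoalsG

/-!
# Project QS (MP_0ebdb3_gt), packet PL: facts on the polar coordinates
-/

set_option autoImplicit false

open Set ComplexConjugate

namespace Pool.Agent.Helper8.QS

open Pool.Agent.Helper61.QS

theorem pol_contDiff : ContDiff ℝ 3 pol := by
  unfold pol
  have c1 : ContDiff ℝ 3 (fun x : ℝ => (x : ℂ)) := Complex.ofRealCLM.contDiff
  have f1 : ContDiff ℝ 3 (fun x : R4 => x.1) := contDiff_fst
  have f2 : ContDiff ℝ 3 (fun x : R4 => x.2.1) := contDiff_fst.comp contDiff_snd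
  have f3 : ContDiff ℝ 3 (fun x : R4 => x.2.2.1) :=
    contDiff_fst.comp (contDiff_snd.comp contDiff_snd)
  have f4 : ContDiff ℝ 3 (fun x : R4 => x.2.2.2) :=
    contDiff_snd.comp (contDiff_snd.comp contDiff_snd)
  have g1 : ContDiff ℝ 3 (fun x : R4 => ((Real.cos x.1 : ℝ) : ℂ)) :=
    c1.comp (Real.contDiff_cos.comp f1)
  have g2 : ContDiff ℝ 3 (fun x : R4 => ((Real.sin x.1 : ℝ) : ℂ)) :=
    c1.comp (Real.contDiff_sin.comp f1)
  have g3 : ContDiff ℝ 3 (fun x : R4 => ((Real.sin x.2.1 : ℝ) : ℂ)) :=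
    c1.comp (Real.contDiff_sin.comp f2)
  have g4 : ContDiff ℝ 3 (fun x : R4 => Real.cos x.2.1) := Real.contDiff_cos.comp f2
  have g5 : ContDiff ℝ 3 (fun x : R4 => Complex.exp (x.2.2.1 * Complex.I)) :=
    ((c1.comp f3).mul contDiff_const).cexp
  have g6 : ContDiff ℝ 3 (fun x : R4 => Complex.exp (x.2.2.2 * Complex.I)) :=
    ((c1.comp f4).mul contDiff_const).cexp
  exact (g1.prodMk (g5.mul g2)).prodMk ((g6.mul g3).prodMk g4)

theorem lin_deriv (x a : ℝ) : HasDerivAt (fun t : ℝ => x + t * a) a 0 := by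
  have h := ((hasDerivAt_id (0 : ℝ)).mul_const a).const_add x
  simpa using h

theorem cos_deriv (x a : ℝ) : HasDerivAt (fun t : ℝ => Real.cos (x + t * a))
    (-(Real.sin x * a)) 0 := by
  have h := (lin_deriv x a).cos
  simpa using h

theorem sin_deriv (x a : ℝ) : HasDerivAt (fun t : ℝ => Real.sin (x + t * a))
    (Real.cos x * a) 0 := by
  have h := (lin_deriv x a).sin
  simpa using h

theorem exp_deriv (x a : ℝ) :
    HasDerivAt (fun t : ℝ => Complex.exp (((x + t * a : ℝ) : ℂ) * Complex.I))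
    (Complex.exp (x * Complex.I) * (a * Complex.I)) 0 := by
  have h := ((lin_deriv x a).ofReal_comp.mul_const Complex.I).cexp
  simpa using h

theorem exp_sin_deriv (x a y b : ℝ) :
    HasDerivAt (fun t : ℝ => Complex.exp (((x + t * a : ℝ) : ℂ) * Complex.I) *
      ((Real.sin (y + t * b) : ℝ) : ℂ))
    (Complex.exp (x * Complex.I) * (Real.cos y * b + Complex.I * Real.sin y * a)) 0 := by
  have h := (exp_deriv x a).mul (sin_deriv y b).ofReal_comp
  have h1 : Complex.exp (x * Complex.I) * (a * Complex.I) *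
      ((Real.sin (y + 0 * b) : ℝ) : ℂ) + Complex.exp (((x + 0 * a : ℝ) : ℂ) * Complex.I) *
      ((Real.cos y * b : ℝ) : ℂ) =
      Complex.exp (x * Complex.I) * (Real.cos y * b + Complex.I * Real.sin y * a) := by
    rw [zero_mul, add_zero, zero_mul, add_zero]
    push_cast
    ring
  rw [← h1]
  exact h

theorem pol_fderiv (x a : R4) : fderiv ℝ pol x a =
    ((-(Real.sin x.1 * a.1 : ℂ), Complex.exp (x.2.2.1 * Complex.I) *
        (Real.cos x.1 * a.1 + Complex.I * Real.sin x.1 * a.2.2.1)),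
      (Complex.exp (x.2.2.2 * Complex.I) *
        (Real.cos x.2.1 * a.2.1 + Complex.I * Real.sin x.2.1 * a.2.2.2),
        -(Real.sin x.2.1 * a.2.1))) := by
  have hd : Differentiable ℝ pol := pol_contDiff.differentiable (by norm_num)
  have hl : HasDerivAt (fun t : ℝ => x + t • a) a 0 := by
    have h := ((hasDerivAt_id (0 : ℝ)).smul_const a).const_add x
    simpa using h
  have h1 : HasDerivAt (fun t : ℝ => pol (x + t • a)) (fderiv ℝ pol x a) 0 := by
    have h2 : HasFDerivAt pol (fderiv ℝ pol x) (x + (0 : ℝ) • a) := by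
      rw [zero_smul, add_zero]
      exact (hd x).hasFDerivAt
    exact h2.comp_hasDerivAt (0 : ℝ) hl
  have h3 : HasDerivAt (fun t : ℝ => pol (x + t • a))
      ((-(Real.sin x.1 * a.1 : ℂ), Complex.exp (x.2.2.1 * Complex.I) *
        (Real.cos x.1 * a.1 + Complex.I * Real.sin x.1 * a.2.2.1)),
      (Complex.exp (x.2.2.2 * Complex.I) *
        (Real.cos x.2.1 * a.2.1 + Complex.I * Real.sin x.2.1 * a.2.2.2),
        -(Real.sin x.2.1 * a.2.1))) 0 := by
    have k1 := (cos_deriv x.1 a.1).ofReal_comp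
    have k1' : ((-(Real.sin x.1 * a.1) : ℝ) : ℂ) = -(Real.sin x.1 * a.1 : ℂ) := by push_cast; ring
    rw [k1'] at k1
    have k2 := exp_sin_deriv x.2.2.1 a.2.2.1 x.1 a.1
    have k3 := exp_sin_deriv x.2.2.2 a.2.2.2 x.2.1 a.2.1
    have k4 := cos_deriv x.2.1 a.2.1
    exact (k1.prodMk k2).prodMk (k3.prodMk k4)
  exact h1.unique h3

theorem exp_norm (x : ℝ) : ‖Complex.exp (x * Complex.I)‖ = 1 := Complex.norm_exp_ofReal_mul_I x

theorem conj_exp (x : ℝ) : conj (Complex.exp (x * Complex.I)) * Complex.exp (x * Complex.I) = 1 := by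
  have h := Complex.mul_conj (Complex.exp (x * Complex.I))
  rw [mul_comm, h, Complex.normSq_eq_norm_sq, exp_norm]
  norm_num

theorem pol_mem (x : R4) : pol x ∈ X := by
  constructor
  · show ‖((Real.cos x.1 : ℝ) : ℂ)‖ ^ 2 +
      ‖Complex.exp (x.2.2.1 * Complex.I) * ((Real.sin x.1 : ℝ) : ℂ)‖ ^ 2 = 1
    rw [norm_mul, exp_norm, one_mul, Complex.norm_real, Complex.norm_real, Real.norm_eq_abs,
      Real.norm_eq_abs, sq_abs, sq_abs]
    exact Real.cos_sq_add_sin_sq x.1
  · show ‖Complex.exp (x.2.2.2 * Complex.I) * ((Real.sin x.2.1 : ℝ) : ℂ)‖ ^ 2 +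
      Real.cos x.2.1 ^ 2 = 1
    rw [norm_mul, exp_norm, one_mul, Complex.norm_real, Real.norm_eq_abs, sq_abs]
    exact Real.sin_sq_add_cos_sq x.2.1

theorem re_aux (x s c b d : ℝ) : (conj (Complex.exp (x * Complex.I) * (s : ℂ)) *
    (Complex.exp (x * Complex.I) * (c * b + Complex.I * s * d))).re = s * (c * b) := by
  have h : conj (Complex.exp (x * Complex.I) * (s : ℂ)) *
      (Complex.exp (x * Complex.I) * (c * b + Complex.I * s * d)) =
      ((s * (c * b) : ℝ) : ℂ) + ((s * (s * d) : ℝ) : ℂ) * Complex.I := by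
    rw [map_mul, Complex.conj_ofReal]
    have h1 := conj_exp x
    calc conj (Complex.exp (x * Complex.I)) * (s : ℂ) *
        (Complex.exp (x * Complex.I) * (c * b + Complex.I * s * d))
        = (conj (Complex.exp (x * Complex.I)) * Complex.exp (x * Complex.I)) *
          ((s : ℂ) * (c * b + Complex.I * s * d)) := by ring
      _ = _ := by
        rw [h1]
        push_cast
        ring
  rw [h, Complex.add_re, Complex.ofReal_re, Complex.re_ofReal_mul, Complex.I_re, mul_zero, add_zero]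

theorem pol_tangent (x a : R4) : fderiv ℝ pol x a ∈ TX (pol x) := by
  rw [pol_fderiv]
  constructor
  · show (conj ((Real.cos x.1 : ℝ) : ℂ) * (-(Real.sin x.1 * a.1 : ℂ)) +
      conj (Complex.exp (x.2.2.1 * Complex.I) * ((Real.sin x.1 : ℝ) : ℂ)) *
      (Complex.exp (x.2.2.1 * Complex.I) *
        (Real.cos x.1 * a.1 + Complex.I * Real.sin x.1 * a.2.2.1))).re = 0
    rw [Complex.add_re, re_aux, Complex.conj_ofReal]
    have h : ((Real.cos x.1 : ℝ) : ℂ) * (-(((Real.sin x.1 : ℝ) : ℂ) * ((a.1 : ℝ) : ℂ))) =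
        ((-(Real.cos x.1 * (Real.sin x.1 * a.1)) : ℝ) : ℂ) := by
      push_cast
      ring
    rw [h, Complex.ofReal_re]
    ring
  · show (conj (Complex.exp (x.2.2.2 * Complex.I) * ((Real.sin x.2.1 : ℝ) : ℂ)) *
      (Complex.exp (x.2.2.2 * Complex.I) *
        (Real.cos x.2.1 * a.2.1 + Complex.I * Real.sin x.2.1 * a.2.2.2))).re +
      Real.cos x.2.1 * (-(Real.sin x.2.1 * a.2.1)) = 0
    rw [re_aux]
    ring

theorem lin_zero {s c b d : ℝ} (h : (c : ℂ) * b + Complex.I * s * d = 0) (hs : s ≠ 0) : d = 0 := by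
  have h1 := congrArg Complex.im h
  have h2 : ((c : ℂ) * b + Complex.I * s * d) = ((c * b : ℝ) : ℂ) + ((s * d : ℝ) : ℂ) * Complex.I := by
    push_cast
    ring
  rw [h2, Complex.add_im, Complex.ofReal_im, Complex.im_ofReal_mul, Complex.I_im, mul_one,
    zero_add, Complex.zero_im] at h1
  exact (mul_eq_zero.mp h1).resolve_left hs

theorem pol_trans (m : ℤ) (x : R4) (hx : x ∈ Reg) (a : R4) (τ : ℝ)
    (h : fderiv ℝ pol x a = τ • orb m (pol x)) : a = 0 := by
  obtain ⟨hs, hc, hs'⟩ := hx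
  rw [pol_fderiv] at h
  have h1 : -(((Real.sin x.1 : ℝ) : ℂ) * ((a.1 : ℝ) : ℂ)) =
      τ • (Complex.I * ((Real.cos x.1 : ℝ) : ℂ)) := congrArg (fun P : W => P.1.1) h
  have h1' : ((-(Real.sin x.1 * a.1) : ℝ) : ℂ) =
      ((τ * Real.cos x.1 : ℝ) : ℂ) * Complex.I := by
    have h2 : τ • (Complex.I * ((Real.cos x.1 : ℝ) : ℂ)) =
        ((τ * Real.cos x.1 : ℝ) : ℂ) * Complex.I := by
      rw [Complex.real_smul]
      push_cast
      ring
    rw [← h2, ← h1]
    push_cast
    ring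
  have h2 := congrArg Complex.im h1'
  rw [Complex.ofReal_im, Complex.im_ofReal_mul, Complex.I_im, mul_one] at h2
  have hτ : τ = 0 := (mul_eq_zero.mp h2.symm).resolve_right hc
  have h3 := congrArg Complex.re h1'
  rw [Complex.ofReal_re, Complex.re_ofReal_mul, Complex.I_re, mul_zero] at h3
  have ha1 : a.1 = 0 := (mul_eq_zero.mp (neg_eq_zero.mp h3)).resolve_left hs
  rw [hτ, zero_smul] at h
  have h4 : Complex.exp (x.2.2.1 * Complex.I) *
        (Real.cos x.1 * a.1 + Complex.I * Real.sin x.1 * a.2.2.1) = 0 :=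
    congrArg (fun P : W => P.1.2) h
  have h5 : Complex.exp (x.2.2.2 * Complex.I) *
        (Real.cos x.2.1 * a.2.1 + Complex.I * Real.sin x.2.1 * a.2.2.2) = 0 :=
    congrArg (fun P : W => P.2.1) h
  have h6 : -(Real.sin x.2.1 * a.2.1) = 0 := congrArg (fun P : W => P.2.2) h
  have ha2 : a.2.1 = 0 := (mul_eq_zero.mp (neg_eq_zero.mp h6)).resolve_left hs'
  have ha3 : a.2.2.1 = 0 :=
    lin_zero ((mul_eq_zero.mp h4).resolve_left (Complex.exp_ne_zero _)) hs
  have ha4 : a.2.2.2 = 0 :=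
    lin_zero ((mul_eq_zero.mp h5).resolve_left (Complex.exp_ne_zero _)) hs'
  exact Prod.ext ha1 (Prod.ext ha2 (Prod.ext ha3 ha4))

theorem goalPL : G_PL :=
  ⟨pol_contDiff, pol_mem, pol_tangent, pol_fderiv, fun m x hx a τ h => pol_trans m x hx a τ h⟩

end Pool.Agent.Helper8.QS
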