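import Pool.Agent.Helper61.QS.GoalsH

/-!
# Project QS (MP_0ebdb3_gt), packet D2: the identifications of the polar box are the only ones
-/

set_option autoImplicit false

open Set ComplexConjugate

namespace Pool.Agent.Helper8.QS

open Pool.Agent.Helper61.QS

theorem exp_int {a b : ℝ} (h : Complex.exp (a * Complex.I) = Complex.exp (b * Complex.I)) :
    ∃ j : ℤ, a = b + j * (2 * Real.pi) := by
  obtain ⟨n, hn⟩ := Complex.exp_eq_exp_iff_exists_int.mp h
  refine ⟨n, ?_⟩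
  have h1 : ((a : ℂ)) * Complex.I = (((b + n * (2 * Real.pi) : ℝ)) : ℂ) * Complex.I := by
    rw [hn]
    push_cast
    ring
  have h2 := mul_right_cancel₀ Complex.I_ne_zero h1
  exact_mod_cast h2

theorem per_int {Y : Type} (g : ℝ → Y) (h : ∀ x, g (x + 2 * Real.pi) = g x) (j : ℤ) :
    ∀ x, g (x + j * (2 * Real.pi)) = g x := by
  induction j using Int.induction_on with
  | zero =>
    intro x
    norm_num
  | succ i ih =>
    intro x
    have h1 : x + (((i : ℤ) + 1 : ℤ) : ℝ) * (2 * Real.pi) =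
        (x + ((i : ℤ) : ℝ) * (2 * Real.pi)) + 2 * Real.pi := by
      push_cast
      ring
    rw [h1, h, ih]
  | pred i ih =>
    intro x
    have h1 : (x + ((-(i : ℤ) - 1 : ℤ) : ℝ) * (2 * Real.pi)) + 2 * Real.pi =
        x + ((-(i : ℤ) : ℤ) : ℝ) * (2 * Real.pi) := by
      push_cast
      ring
    rw [← h, h1, ih]

theorem sin_zero {θ : ℝ} (h0 : 0 ≤ θ) (h1 : θ ≤ Real.pi) (h : Real.sin θ = 0) :
    θ = 0 ∨ θ = Real.pi := by
  rcases eq_or_lt_of_le h1 with h2 | h2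
  · exact Or.inr h2
  · left
    exact (Real.sin_eq_zero_iff_of_lt_of_lt (by linarith [Real.pi_pos]) h2).mp h

/-- moving `β` -/
theorem moveβ {m : ℤ} {Y : Type} {f : R4 → Y} (hf : Compat m f) {r θ : ℝ} (hr0 : 0 ≤ r)
    (hr1 : r ≤ Real.pi / 2) (h0 : 0 ≤ θ) (h1 : θ ≤ Real.pi) (α β β' : ℝ)
    (h : Complex.exp (β' * Complex.I) * (Real.sin θ : ℂ) =
      Complex.exp (β * Complex.I) * (Real.sin θ : ℂ)) :
    f (r, θ, α, β') = f (r, θ, α, β) := by
  by_cases hs : Real.sin θ = 0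
  · rcases sin_zero h0 h1 hs with h2 | h2
    · subst h2
      rw [hf.t0 r α β' hr0 hr1, hf.t0 r α β hr0 hr1]
    · subst h2
      rw [hf.t1 r α β' hr0 hr1, hf.t1 r α β hr0 hr1]
  · have h2 : ((Real.sin θ : ℝ) : ℂ) ≠ 0 := by exact_mod_cast hs
    obtain ⟨j, rfl⟩ := exp_int (mul_right_cancel₀ h2 h)
    exact per_int (fun b => f (r, θ, α, b)) (fun b => hf.perβ r θ α b ⟨hr0, hr1, h0, h1⟩) j β

/-- moving `α` -/
theorem moveα {m : ℤ} {Y : Type} {f : R4 → Y} (hf : Compat m f) {r θ : ℝ} (hr0 : 0 ≤ r)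
    (hr1 : r ≤ Real.pi / 2) (h0 : 0 ≤ θ) (h1 : θ ≤ Real.pi) (α α' β : ℝ)
    (h : Complex.exp (α' * Complex.I) * (Real.sin r : ℂ) =
      Complex.exp (α * Complex.I) * (Real.sin r : ℂ)) :
    f (r, θ, α', β) = f (r, θ, α, β) := by
  by_cases hs : Real.sin r = 0
  · have h2 : r = 0 :=
      (Real.sin_eq_zero_iff_of_lt_of_lt (by linarith [Real.pi_pos]) (by linarith [Real.pi_pos])).mp hs
    subst h2
    rw [hf.r0 θ α' β h0 h1, hf.r0 θ α β h0 h1]
  · have h2 : ((Real.sin r : ℝ) : ℂ) ≠ 0 := by exact_mod_cast hs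
    obtain ⟨j, rfl⟩ := exp_int (mul_right_cancel₀ h2 h)
    exact per_int (fun a => f (r, θ, a, β)) (fun a => hf.perα r θ a β ⟨hr0, hr1, h0, h1⟩) j α

theorem goalD2 : G_D2 := by
  rintro m Y f hf ⟨r, θ, α, β⟩ ⟨hr0, hr1, h0, h1⟩ ⟨r', θ', α', β'⟩ ⟨hr0', hr1', h0', h1'⟩ ζ hζ h
  simp only at hr0 hr1 h0 h1 hr0' hr1' h0' h1'
  have hpi := Real.pi_pos
  have e1 : ((Real.cos r' : ℝ) : ℂ) = ζ * ((Real.cos r : ℝ) : ℂ) := congrArg (fun P : W => P.1.1) h
  have e2 : Complex.exp (α' * Complex.I) * ((Real.sin r' : ℝ) : ℂ) =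
      ζ * (Complex.exp (α * Complex.I) * ((Real.sin r : ℝ) : ℂ)) := congrArg (fun P : W => P.1.2) h
  have e3 : Complex.exp (β' * Complex.I) * ((Real.sin θ' : ℝ) : ℂ) =
      ζ ^ m * (Complex.exp (β * Complex.I) * ((Real.sin θ : ℝ) : ℂ)) :=
    congrArg (fun P : W => P.2.1) h
  have e4 : Real.cos θ' = Real.cos θ := congrArg (fun P : W => P.2.2) h
  have hθ : θ' = θ := Real.injOn_cos ⟨h0', h1'⟩ ⟨h0, h1⟩ e4
  have hc : 0 ≤ Real.cos r := Real.cos_nonneg_of_neg_pi_div_two_le_of_le (by linarith) hr1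
  have hc' : 0 ≤ Real.cos r' := Real.cos_nonneg_of_neg_pi_div_two_le_of_le (by linarith) hr1'
  have e5 : Real.cos r' = Real.cos r := by
    have h2 := congrArg norm e1
    rw [norm_mul, hζ, one_mul, Complex.norm_real, Complex.norm_real, Real.norm_of_nonneg hc,
      Real.norm_of_nonneg hc'] at h2
    exact h2
  have hr : r' = r := Real.injOn_cos ⟨hr0', by linarith⟩ ⟨hr0, by linarith⟩ e5
  subst hθ
  subst hr
  by_cases hcr : Real.cos r' = 0
  · have hr2 : r' = Real.pi / 2 :=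
      Real.injOn_cos ⟨hr0', by linarith⟩ ⟨by linarith, by linarith⟩
        (by rw [hcr, Real.cos_pi_div_two])
    subst hr2
    rw [hf.r1 θ' α' β' h0 h1, hf.r1 θ' α β h0 h1]
    have e6 : Complex.exp (α' * Complex.I) = ζ * Complex.exp (α * Complex.I) := by
      rw [Real.sin_pi_div_two, Complex.ofReal_one, mul_one, mul_one] at e2
      exact e2
    have e7 : ζ = Complex.exp (((α' - α : ℝ) : ℂ) * Complex.I) := by
      have h2 : ζ = Complex.exp (α' * Complex.I) / Complex.exp (α * Complex.I) := by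
        rw [e6, mul_div_assoc, div_self (Complex.exp_ne_zero _), mul_one]
      rw [h2, ← Complex.exp_sub]
      congr 1
      push_cast
      ring
    apply moveβ hf hr0 hr1 h0 h1
    have e8 : ζ ^ m = Complex.exp (((m * (α' - α) : ℝ) : ℂ) * Complex.I) := by
      rw [e7, ← Complex.exp_int_mul]
      congr 1
      push_cast
      ring
    rw [e8, ← mul_assoc, ← Complex.exp_add] at e3
    have e9 : Complex.exp (((β' - m * α' : ℝ) : ℂ) * Complex.I) =
        Complex.exp (((-(m * α') : ℝ) : ℂ) * Complex.I) * Complex.exp (β' * Complex.I) := by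
      rw [← Complex.exp_add]
      congr 1
      push_cast
      ring
    rw [e9, mul_assoc, e3, ← mul_assoc, ← Complex.exp_add]
    congr 2
    push_cast
    ring
  · have hcr' : ((Real.cos r' : ℝ) : ℂ) ≠ 0 := by exact_mod_cast hcr
    have e6 : ζ = 1 := by
      have h2 : (1 : ℂ) * ((Real.cos r' : ℝ) : ℂ) = ζ * ((Real.cos r' : ℝ) : ℂ) := by
        rw [one_mul]
        exact e1
      exact (mul_right_cancel₀ hcr' h2).symm
    rw [e6, one_mul] at e2
    rw [e6, one_zpow, one_mul] at e3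
    rw [moveα hf hr0 hr1 h0 h1 α α' β' e2, moveβ hf hr0 hr1 h0 h1 α β β' e3]

end Pool.Agent.Helper8.QS
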